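import Mathlib
import Pool.Agent.Y509.KP.Cert

/-!
Y570/SP (helper570, MP_b5f63d_co): pseudo-codes of level `k` on a finite set.
-/

set_option autoImplicit false
set_option linter.unusedSectionVars false

namespace Pool.Agent.Y570.SP

open Pool.Agent.Y570.KP (cond)
open Pool.Agent.Y509.KP (cond_empty psd_some psd_none weak contr contr_map)

variable {V W : Type} [Fintype V] [DecidableEq V] [Fintype W] [DecidableEq W] {k : ℕ}

/-- pseudo-codes of level `k` for the graph of the forbidden pairs `R` -/
structure KC (k : ℕ) (R : V → V → Prop) (y : Finset V → ℝ) : Prop where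
  one : y ∅ = 1
  sep : ∀ S : Finset V, ∀ u ∈ S, ∀ v ∈ S, u ≠ v → R u v → y S = 0
  nonneg : ∀ D F : Finset V, D.card + F.card ≤ k → 0 ≤ cond y D F ∅
  psd : ∀ D F : Finset V, D.card + F.card + 2 ≤ k → ∀ a : Option V → ℝ,
    0 ≤ ∑ s, ∑ t, a s * a t * cond y D F (s.toFinset ∪ t.toFinset)

lemma cond_equiv (e : W ≃ V) (y : Finset V → ℝ) (D F S : Finset W) :
    cond (fun S => y (S.map e.toEmbedding)) D F S =
      cond y (D.map e.toEmbedding) (F.map e.toEmbedding) (S.map e.toEmbedding) := by
  unfold Pool.Agent.Y570.KP.cond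
  refine Finset.sum_nbij' (fun G => G.map e.toEmbedding) (fun G => G.map e.symm.toEmbedding)
    ?_ ?_ ?_ ?_ ?_
  · intro G hG
    rw [Finset.mem_powerset] at hG ⊢
    exact Finset.map_subset_map.2 hG
  · intro G hG
    rw [Finset.mem_powerset] at hG ⊢
    intro x hx
    rw [Finset.mem_map] at hx
    obtain ⟨z, hz, rfl⟩ := hx
    have := hG hz
    rw [Finset.mem_map] at this
    obtain ⟨w, hw, rfl⟩ := this
    simpa using hw
  · intro G _
    ext x
    simp
  · intro G _
    ext x
    simp
  · intro G _
    simp only [Finset.card_map, Finset.map_union]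

lemma KC.transport (e : W ≃ V) {R : V → V → Prop} {R' : W → W → Prop}
    (hR : ∀ u v, R' u v → R (e u) (e v)) {y : Finset V → ℝ} (h : KC k R y) :
    KC k R' (fun S => y (S.map e.toEmbedding)) := by
  refine ⟨by simpa using h.one, ?_, ?_, ?_⟩
  · intro S u hu v hv huv hlt
    refine h.sep _ (e u) ?_ (e v) ?_ (fun he => huv (e.injective he)) (hR u v hlt)
    · exact Finset.mem_map_of_mem e.toEmbedding hu
    · exact Finset.mem_map_of_mem e.toEmbedding hv
  · intro D F hDF
    rw [cond_equiv, Finset.map_empty]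
    exact h.nonneg _ _ (by rwa [Finset.card_map, Finset.card_map])
  · intro D F hDF a
    have h1 := h.psd (D.map e.toEmbedding) (F.map e.toEmbedding)
      (by rwa [Finset.card_map, Finset.card_map]) (fun s => a ((Equiv.optionCongr e).symm s))
    refine h1.trans (le_of_eq ?_)
    rw [← Equiv.sum_comp (Equiv.optionCongr e)]
    refine Finset.sum_congr rfl fun s _ => ?_
    rw [← Equiv.sum_comp (Equiv.optionCongr e)]
    refine Finset.sum_congr rfl fun t _ => ?_
    rw [Equiv.symm_apply_apply, Equiv.symm_apply_apply, cond_equiv]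
    have h2 : ∀ s : Option W, ((Equiv.optionCongr e) s).toFinset =
        s.toFinset.map e.toEmbedding := by
      intro s
      cases s <;> simp
    rw [h2, h2, Finset.map_union]

lemma sum_transport (e : W ≃ V) (y : Finset V → ℝ) :
    ∑ x : W, (fun S : Finset W => y (S.map e.toEmbedding)) {x} = ∑ x : V, y {x} := by
  simp only [Finset.map_singleton]
  exact Equiv.sum_comp e fun x => y {x}

lemma KC.single_nonneg (hk : 1 ≤ k) {R : V → V → Prop} {y : Finset V → ℝ} (h : KC k R y)
    (x : V) : 0 ≤ y {x} := by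
  have := h.nonneg {x} ∅ (by simpa using hk)
  rwa [cond_empty, Finset.union_empty] at this

lemma KC.clique (hk : 2 ≤ k) {R : V → V → Prop} {y : Finset V → ℝ} (h : KC k R y)
    (A : Finset V) (hA : ∀ u ∈ A, ∀ v ∈ A, u ≠ v → R u v) : ∑ x ∈ A, y {x} ≤ 1 := by
  have h1 := psd_none hk h.one h.psd fun x => if x ∈ A then 1 else 0
  obtain ⟨p, hp⟩ : ∃ p : ℝ, p = ∑ x ∈ A, y {x} := ⟨_, rfl⟩
  have h2 : ∀ x z : V, (if x ∈ A then (1 : ℝ) else 0) * (if z ∈ A then 1 else 0) *
      (y {x, z} - y {x} * y {z}) =
      (if x = z then (if x ∈ A then y {x} else 0) else 0) -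
        (if x ∈ A then y {x} else 0) * (if z ∈ A then y {z} else 0) := by
    intro x z
    by_cases hx : x ∈ A
    · by_cases hz : z ∈ A
      · simp only [if_pos hx, if_pos hz]
        by_cases hxz : x = z
        · subst hxz
          simp
        · rw [if_neg hxz, h.sep {x, z} x (by simp) z (by simp) hxz (hA x hx z hz hxz)]
          ring
      · simp only [if_pos hx, if_neg hz]
        rw [if_neg (fun hxz : x = z => hz (hxz ▸ hx))]
        ring
    · simp [if_neg hx]
  simp_rw [h2] at h1
  simp only [Finset.sum_sub_distrib, Finset.sum_ite_eq, Finset.mem_univ, if_true,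
    ← Finset.mul_sum, ← Finset.sum_mul, Finset.sum_ite_mem, Finset.univ_inter, ← hp] at h1
  rw [← hp]
  by_contra hc
  rw [not_le] at hc
  nlinarith

end Pool.Agent.Y570.SP
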