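import Mathlib

/-!
Y570/SP (helper570, MP_b5f63d_co): directions of the points of a shell.
-/

set_option autoImplicit false
set_option linter.unusedSectionVars false

open MeasureTheory Filter Topology

namespace Pool.Agent.Y570.SP

variable {n : ℕ}

/-- points of the shell at distance `≥ 1` have a large angle -/
lemma shell_inner {a R s : ℝ} (hs : s < 1) (ha : 0 ≤ a)
    (hR : (R - a) ^ 2 + 2 * (1 - s) * R ^ 2 ≤ 1)
    {x z : EuclideanSpace ℝ (Fin n)} (hx : a ≤ ‖x‖) (hx' : ‖x‖ < R) (hz : a ≤ ‖z‖) (hz' : ‖z‖ < R)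
    (hd : 1 ≤ dist x z) : inner ℝ x z < s * (‖x‖ * ‖z‖) := by
  by_contra hc
  rw [not_lt] at hc
  have h1 : dist x z ^ 2 = ‖x‖ ^ 2 - 2 * inner ℝ x z + ‖z‖ ^ 2 := by
    rw [dist_eq_norm, norm_sub_sq_real]
  have h2 : 1 ≤ dist x z ^ 2 := one_le_pow₀ hd
  obtain ⟨p, hp⟩ : ∃ p : ℝ, p = ‖x‖ := ⟨_, rfl⟩
  obtain ⟨q, hq⟩ : ∃ q : ℝ, q = ‖z‖ := ⟨_, rfl⟩
  rw [h1] at h2
  rw [← hp, ← hq] at h2 hc
  rw [← hp] at hx hx'
  rw [← hq] at hz hz'
  have h3 : (p - q) ^ 2 ≤ (R - a) ^ 2 := by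
    refine sq_le_sq' ?_ ?_ <;> linarith
  have h4 : p * q < R ^ 2 := by
    have hR0 : 0 < R := by linarith
    have hp0 : 0 ≤ p := by linarith
    have hq0 : 0 ≤ q := by linarith
    calc p * q ≤ R * q := mul_le_mul_of_nonneg_right hx'.le hq0
      _ < R * R := mul_lt_mul_of_pos_left hz' hR0
      _ = R ^ 2 := by ring
  have h5 : 2 * (1 - s) * (p * q) < 2 * (1 - s) * R ^ 2 :=
    mul_lt_mul_of_pos_left h4 (by linarith)
  nlinarith

lemma inf_near (hn : 2 ≤ n) {u : EuclideanSpace ℝ (Fin n)} (hu : ‖u‖ = 1) {η : ℝ} (hη : 0 < η) :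
    {w : EuclideanSpace ℝ (Fin n) | ‖w‖ = 1 ∧ dist w u < η}.Infinite := by
  -- an orthogonal unit vector
  obtain ⟨q, hq1, hq2⟩ : ∃ q : EuclideanSpace ℝ (Fin n), ‖q‖ = 1 ∧ inner ℝ u q = 0 := by
    have hfr : Module.finrank ℝ (EuclideanSpace ℝ (Fin n)) = n := finrank_euclideanSpace_fin
    obtain ⟨x, hx, hx0⟩ : ∃ x ∈ (ℝ ∙ u)ᗮ, x ≠ 0 := by
      by_contra h
      push Not at h
      have h1 : (ℝ ∙ u)ᗮ = ⊥ := by
        rw [Submodule.eq_bot_iff]
        exact h
      have h2 := Submodule.finrank_add_finrank_orthogonal (ℝ ∙ u)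
      rw [h1, finrank_bot, hfr] at h2
      have h3 := finrank_span_singleton (K := ℝ) (v := u) (by
        intro h
        rw [h, norm_zero] at hu
        norm_num at hu)
      omega
    refine ⟨‖x‖⁻¹ • x, ?_, ?_⟩
    · rw [norm_smul, norm_inv, norm_norm, inv_mul_cancel₀ (norm_ne_zero_iff.2 hx0)]
    · rw [inner_smul_right, Submodule.mem_orthogonal_singleton_iff_inner_right.1 hx, mul_zero]
  obtain ⟨c, hc⟩ : ∃ c : ℝ → EuclideanSpace ℝ (Fin n),
    c = fun t => Real.cos t • u + Real.sin t • q := ⟨_, rfl⟩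
  have hnorm : ∀ t, ‖c t‖ = 1 := by
    intro t
    have h1 : ‖c t‖ ^ 2 = 1 := by
      rw [hc]
      simp only
      rw [norm_add_sq_real, norm_smul, norm_smul, hu, hq1, inner_smul_left, inner_smul_right, hq2]
      simp
    have h2 := norm_nonneg (c t)
    nlinarith
  have hcont : Continuous fun t => dist (c t) u := by
    rw [hc]
    fun_prop
  have h0 : dist (c 0) u = 0 := by
    rw [hc]
    simp
  have hev : ∀ᶠ t in 𝓝 (0 : ℝ), dist (c t) u < η := by
    refine (hcont.tendsto 0).eventually (gt_mem_nhds ?_)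
    rw [h0]
    exact hη
  obtain ⟨ε, hε, hball⟩ := Metric.eventually_nhds_iff.1 hev
  obtain ⟨b, hb⟩ : ∃ b : ℝ, b = min ε 1 := ⟨_, rfl⟩
  have hb0 : 0 < b := by
    rw [hb]
    exact lt_min hε one_pos
  have hbε : b ≤ ε := by
    rw [hb]
    exact min_le_left _ _
  have hb1 : b ≤ 1 := by
    rw [hb]
    exact min_le_right _ _
  refine Set.infinite_of_injOn_mapsTo (s := Set.Ioo 0 b) (f := c) ?_ ?_ (Set.Ioo_infinite hb0)
  · intro t ht t' ht' htt
    have h1 : inner ℝ q (c t) = Real.sin t := by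
      rw [hc]
      simp only
      rw [inner_add_right, inner_smul_right, inner_smul_right, real_inner_comm, hq2,
        real_inner_self_eq_norm_sq, hq1]
      ring
    have h2 : inner ℝ q (c t') = Real.sin t' := by
      rw [hc]
      simp only
      rw [inner_add_right, inner_smul_right, inner_smul_right, real_inner_comm, hq2,
        real_inner_self_eq_norm_sq, hq1]
      ring
    have h3 : Real.sin t = Real.sin t' := by rw [← h1, ← h2, htt]
    have hpi := Real.pi_gt_three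
    refine Real.injOn_sin ⟨?_, ?_⟩ ⟨?_, ?_⟩ h3
    · linarith [ht.1]
    · linarith [ht.2]
    · linarith [ht'.1]
    · linarith [ht'.2]
  · intro t ht
    refine ⟨hnorm t, hball ?_⟩
    rw [Real.dist_eq, sub_zero, abs_of_pos ht.1]
    linarith [ht.2]

lemma exists_dirs (hn : 2 ≤ n) (X : Finset (EuclideanSpace ℝ (Fin n)))
    (u : EuclideanSpace ℝ (Fin n) → EuclideanSpace ℝ (Fin n)) (hu : ∀ x ∈ X, ‖u x‖ = 1) {η : ℝ}
    (hη : 0 < η) : ∃ ψ : EuclideanSpace ℝ (Fin n) → EuclideanSpace ℝ (Fin n),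
      Set.InjOn ψ X ∧ ∀ x ∈ X, ‖ψ x‖ = 1 ∧ dist (ψ x) (u x) < η := by
  classical
  induction X using Finset.induction_on with
  | empty => exact ⟨fun x => x, by simp, by simp⟩
  | insert b X hb ih =>
    obtain ⟨ψ, h1, h2⟩ := ih fun x hx => hu x (Finset.mem_insert_of_mem hx)
    obtain ⟨w, hw, hw'⟩ := (inf_near hn (hu b (Finset.mem_insert_self b X)) hη).exists_notMem_finset
      (X.image ψ)
    have h3 : ∀ x ∈ X, Function.update ψ b w x = ψ x := by
      intro x hx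
      have hxb : x ≠ b := by
        rintro rfl
        exact hb hx
      exact Function.update_of_ne hxb _ _
    refine ⟨Function.update ψ b w, ?_, ?_⟩
    · intro x hx z hz hxz
      rw [Finset.coe_insert, Set.mem_insert_iff, Finset.mem_coe] at hx hz
      rcases hx with rfl | hx
      · rcases hz with rfl | hz
        · rfl
        · rw [Function.update_self, h3 z hz] at hxz
          exact absurd (Finset.mem_image.2 ⟨z, hz, hxz.symm⟩) hw'
      · rcases hz with rfl | hz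
        · rw [Function.update_self, h3 x hx] at hxz
          exact absurd (Finset.mem_image.2 ⟨x, hx, hxz⟩) hw'
        · rw [h3 x hx, h3 z hz] at hxz
          exact h1 hx hz hxz
    · intro x hx
      rw [Finset.mem_insert] at hx
      rcases hx with rfl | hx
      · rw [Function.update_self]
        exact hw
      · rw [h3 x hx]
        exact h2 x hx

lemma exists_gap {P : Type} (Q : Finset P) (f : P → ℝ) (hf : ∀ p ∈ Q, 0 < f p) :
    ∃ η : ℝ, 0 < η ∧ ∀ p ∈ Q, η ≤ f p := by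
  classical
  induction Q using Finset.induction_on with
  | empty => exact ⟨1, one_pos, by simp⟩
  | insert b Q hb ih =>
    obtain ⟨η, h1, h2⟩ := ih fun p hp => hf p (Finset.mem_insert_of_mem hp)
    refine ⟨min η (f b), lt_min h1 (hf b (Finset.mem_insert_self b Q)), fun p hp => ?_⟩
    rw [Finset.mem_insert] at hp
    rcases hp with rfl | hp
    · exact min_le_right _ _
    · exact (min_le_left _ _).trans (h2 p hp)

/-- **The directions.** -/
theorem dirs (hn : 2 ≤ n) {a R s : ℝ} (hs : s < 1) (ha : 0 < a)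
    (hR : (R - a) ^ 2 + 2 * (1 - s) * R ^ 2 ≤ 1) (X : Finset (EuclideanSpace ℝ (Fin n)))
    (hX : ∀ x ∈ X, a ≤ ‖x‖ ∧ ‖x‖ < R) :
    ∃ ψ : EuclideanSpace ℝ (Fin n) → EuclideanSpace ℝ (Fin n),
      Set.InjOn ψ X ∧ (∀ x ∈ X, ‖ψ x‖ = 1) ∧
      ∀ x ∈ X, ∀ z ∈ X, s < inner ℝ (ψ x) (ψ z) → dist x z < 1 := by
  classical
  obtain ⟨u, hu⟩ : ∃ u : EuclideanSpace ℝ (Fin n) → EuclideanSpace ℝ (Fin n),
    u = fun x => ‖x‖⁻¹ • x := ⟨_, rfl⟩
  have hnx : ∀ x ∈ X, 0 < ‖x‖ := fun x hx => ha.trans_le (hX x hx).1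
  have hu1 : ∀ x ∈ X, ‖u x‖ = 1 := by
    intro x hx
    rw [hu]
    simp only
    rw [norm_smul, norm_inv, norm_norm, inv_mul_cancel₀ (hnx x hx).ne']
  have hin : ∀ x ∈ X, ∀ z ∈ X, 1 ≤ dist x z → inner ℝ (u x) (u z) < s := by
    intro x hx z hz hd
    have h1 := shell_inner hs ha.le hR (hX x hx).1 (hX x hx).2 (hX z hz).1 (hX z hz).2 hd
    have h2 := hnx x hx
    have h3 := hnx z hz
    rw [hu]
    simp only
    rw [real_inner_smul_left, real_inner_smul_right, ← mul_assoc, ← mul_inv, inv_mul_lt_iff₀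
      (by positivity)]
    calc inner ℝ x z < s * (‖x‖ * ‖z‖) := h1
      _ = _ := by ring
  obtain ⟨η, hη0, hη⟩ := exists_gap ((X ×ˢ X).filter fun p => 1 ≤ dist p.1 p.2)
    (fun p => s - inner ℝ (u p.1) (u p.2)) (by
      intro p hp
      rw [Finset.mem_filter, Finset.mem_product] at hp
      have := hin p.1 hp.1.1 p.2 hp.1.2 hp.2
      linarith)
  obtain ⟨ψ, h1, h2⟩ := exists_dirs hn X u hu1 (η := η / 2) (by positivity)
  refine ⟨ψ, h1, fun x hx => (h2 x hx).1, fun x hx z hz hlt => ?_⟩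
  by_contra hd
  rw [not_lt] at hd
  have h3 := hη (x, z) (Finset.mem_filter.2 ⟨Finset.mem_product.2 ⟨hx, hz⟩, hd⟩)
  simp only at h3
  obtain ⟨e1, e2⟩ := h2 x hx
  obtain ⟨e3, e4⟩ := h2 z hz
  have h4 : inner ℝ (ψ x) (ψ z) - inner ℝ (u x) (u z) =
      inner ℝ (ψ x - u x) (ψ z) + inner ℝ (u x) (ψ z - u z) := by
    rw [inner_sub_left, inner_sub_right]
    ring
  have h5 : inner ℝ (ψ x - u x) (ψ z) ≤ η / 2 := by
    refine (real_inner_le_norm _ _).trans ?_
    rw [e3, mul_one, ← dist_eq_norm]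
    exact e2.le
  have h6 : inner ℝ (u x) (ψ z - u z) ≤ η / 2 := by
    refine (real_inner_le_norm _ _).trans ?_
    rw [hu1 x hx, one_mul, ← dist_eq_norm]
    exact e4.le
  linarith

end Pool.Agent.Y570.SP
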