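import Mathlib
import Pool.Agent.TH41.KL.QF

/-!
Y570/SP (helper570, MP_b5f63d_co): a positive definite zonal kernel minus its mean is positive
semidefinite.
-/

set_option autoImplicit false
set_option linter.unusedSectionVars false

open MeasureTheory Filter Topology

namespace Pool.Agent.Y570.SP

open Pool.Agent.TH41.KL Pool.Agent.TH41.KL.QFf

variable {n : ℕ}

/-- the mean of a zonal function -/
noncomputable def mean (n : ℕ) (g : ℝ → ℝ) : ℝ :=
  (∫ u in Metric.ball (0 : EuclideanSpace ℝ (Fin n)) 1,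
    ∫ w in Metric.ball (0 : EuclideanSpace ℝ (Fin n)) 1, g (inner ℝ u w / (‖u‖ * ‖w‖))) /
    (volume (Metric.ball (0 : EuclideanSpace ℝ (Fin n)) 1)).toReal ^ 2

/-- the integral over the ball of a zonal function about `p` -/
noncomputable def HH (G : ℝ → ℝ) (p : EuclideanSpace ℝ (Fin n)) : ℝ :=
  ∫ w in Metric.ball (0 : EuclideanSpace ℝ (Fin n)) 1, G (inner ℝ p w / ‖w‖)

lemma HH_const (G : ℝ → ℝ) {p p' : EuclideanSpace ℝ (Fin n)} (h : ‖p‖ = 1) (h' : ‖p'‖ = 1) :
    HH G p = HH G p' := by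
  obtain ⟨T, hT⟩ : ∃ T : EuclideanSpace ℝ (Fin n) ≃ₗᵢ[ℝ] EuclideanSpace ℝ (Fin n), T p = p' :=
    ⟨_, Submodule.reflection_sub (h.trans h'.symm)⟩
  have h1 := T.measurePreserving.setIntegral_preimage_emb
    (T.toHomeomorph.measurableEmbedding) (fun w => G (inner ℝ p' w / ‖w‖))
    (Metric.ball (0 : EuclideanSpace ℝ (Fin n)) 1)
  have h2 : (T : EuclideanSpace ℝ (Fin n) → EuclideanSpace ℝ (Fin n)) ⁻¹'
      Metric.ball (0 : EuclideanSpace ℝ (Fin n)) 1 = Metric.ball 0 1 := by
    ext w
    simp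
  rw [h2] at h1
  unfold HH
  rw [← h1]
  refine setIntegral_congr_fun measurableSet_ball fun w _ => ?_
  rw [← hT, T.inner_map_map, T.norm_map]

theorem psd_mean (hn : 0 < n) {g : ℝ → ℝ} (hg : ContinuousOn g (Set.Icc (-1) 1)) (hPD : PD n g)
    (X : Finset (EuclideanSpace ℝ (Fin n))) (hX : ∀ x ∈ X, ‖x‖ = 1)
    (a : EuclideanSpace ℝ (Fin n) → ℝ) :
    mean n g * (∑ x ∈ X, a x) ^ 2 ≤ ∑ x ∈ X, ∑ z ∈ X, a x * a z * g (inner ℝ x z) := by
  classical
  have : NeZero n := ⟨hn.ne'⟩
  have : Nontrivial (EuclideanSpace ℝ (Fin n)) := by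
    have : Nonempty (Fin n) := ⟨⟨0, hn⟩⟩
    infer_instance
  obtain ⟨B, hB⟩ : ∃ B : Set (EuclideanSpace ℝ (Fin n)), B = Metric.ball 0 1 := ⟨_, rfl⟩
  have hBm : MeasurableSet B := by rw [hB]; exact measurableSet_ball
  have hBt : volume B ≠ ⊤ := by rw [hB]; exact measure_ball_lt_top.ne
  obtain ⟨G, hG⟩ : ∃ G : ℝ → ℝ, G = Set.IccExtend (show (-1 : ℝ) ≤ 1 by norm_num)
      (fun t => g t) := ⟨_, rfl⟩
  have hGc : Continuous G := by
    rw [hG]
    apply Continuous.Icc_extend'
    exact continuousOn_iff_continuous_domRestrict.1 hg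
  have hGg : ∀ t, -1 ≤ t → t ≤ 1 → G t = g t := by
    intro t h1 h2
    rw [hG, Set.IccExtend_of_mem _ _ ⟨h1, h2⟩]
  obtain ⟨C, hC⟩ : ∃ C : ℝ, ∀ t, |G t| ≤ C := by
    obtain ⟨C, hC⟩ := (isCompact_Icc (a := (-1 : ℝ)) (b := 1)).exists_bound_of_continuousOn hg
    refine ⟨C, fun t => ?_⟩
    have := hC (Set.projIcc (-1) 1 (by norm_num) t) (Set.projIcc (-1 : ℝ) 1 (by norm_num) t).2
    simpa [hG, Set.IccExtend] using this
  have hC0 : 0 ≤ C := (abs_nonneg _).trans (hC 0)
  obtain ⟨e, he⟩ : ∃ e : EuclideanSpace ℝ (Fin n), ‖e‖ = 1 := exists_norm_eq _ zero_le_one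
  obtain ⟨V, hV⟩ : ∃ V : ℝ, V = (volume B).toReal := ⟨_, rfl⟩
  have hV0 : 0 < V := by
    rw [hV, hB]
    exact ENNReal.toReal_pos (Metric.measure_ball_pos volume _ one_pos).ne'
      measure_ball_lt_top.ne
  have hcs : ∀ u w : EuclideanSpace ℝ (Fin n), ‖u‖ = 1 → ‖w‖ = 1 →
      -1 ≤ inner ℝ u w ∧ inner ℝ u w ≤ 1 := by
    intro u w hu hw
    have h1 := abs_real_inner_le_norm u w
    rw [hu, hw, mul_one] at h1
    exact abs_le.1 h1
  -- the kernel
  obtain ⟨K, hK⟩ : ∃ K : EuclideanSpace ℝ (Fin n) → EuclideanSpace ℝ (Fin n) → ℝ,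
    K = fun u w => G (inner ℝ (un e u) (un e w)) := ⟨_, rfl⟩
  have hK' : ∀ u w, K u w = G (inner ℝ (un e u) (un e w)) := fun u w => by rw [hK]
  have hKm : Measurable fun z : EuclideanSpace ℝ (Fin n) × EuclideanSpace ℝ (Fin n) =>
      K z.1 z.2 := by
    simp only [hK']
    exact hGc.measurable.comp (Measurable.inner ((measurable_un e).comp measurable_fst)
      ((measurable_un e).comp measurable_snd))
  have hKb : ∀ u w, |K u w| ≤ C := fun u w => by rw [hK']; exact hC _
  have hKs : ∀ u w, K u w = K w u := fun u w => by rw [hK', hK', real_inner_comm]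
  have hunX : ∀ x ∈ X, un e x = x := by
    intro x hx
    have h1 := hX x hx
    have h2 : x ≠ 0 := by
      intro h
      rw [h, norm_zero] at h1
      norm_num at h1
    simp [un, h2, h1]
  have hKX : ∀ x ∈ X, ∀ z ∈ X, K x z = g (inner ℝ x z) := by
    intro x hx z hz
    rw [hK', hunX x hx, hunX z hz]
    obtain ⟨h1, h2⟩ := hcs x z (hX x hx) (hX z hz)
    exact hGg _ h1 h2
  obtain ⟨h₀, hh₀⟩ : ∃ h₀ : ℝ, h₀ = HH G e := ⟨_, rfl⟩
  have hae : ∀ᵐ w : EuclideanSpace ℝ (Fin n) ∂(volume.restrict B), w ≠ 0 :=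
    ae_restrict_of_ae (Measure.ae_ne volume 0)
  have hint : ∀ u, ∫ w in B, K u w = h₀ := by
    intro u
    rw [hh₀, HH_const G he (norm_un he u)]
    unfold HH
    rw [← hB]
    refine integral_congr_ae ?_
    filter_upwards [hae] with w hw
    rw [hK']
    congr 1
    simp only [un, if_neg hw]
    rw [real_inner_smul_right]
    ring
  have hint' : ∀ z, ∫ u in B, K u z = h₀ := by
    intro z
    rw [← hint z]
    refine integral_congr_ae (Eventually.of_forall fun u => ?_)
    exact hKs u z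
  -- the mean
  have hmean : mean n g = h₀ / V := by
    unfold mean
    rw [← hB, ← hV]
    have h1 : ∫ u in B, ∫ w in B, g (inner ℝ u w / (‖u‖ * ‖w‖)) = ∫ _u in B, h₀ := by
      refine integral_congr_ae ?_
      filter_upwards [hae] with u hu
      rw [← hint u]
      refine integral_congr_ae ?_
      filter_upwards [hae] with w hw
      rw [hK', inner_un hu hw]
      symm
      refine hGg _ ?_ ?_
      · have := hcs (un e u) (un e w) (norm_un he u) (norm_un he w)
        rw [inner_un hu hw] at this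
        exact this.1
      · have := hcs (un e u) (un e w) (norm_un he u) (norm_un he w)
        rw [inner_un hu hw] at this
        exact this.2
    rw [h1, setIntegral_const, measureReal_def, ← hV, smul_eq_mul]
    field_simp
  -- the weights
  obtain ⟨A, hA⟩ : ∃ A : ℝ, A = ∑ x ∈ X, a x := ⟨_, rfl⟩
  obtain ⟨c, hc⟩ : ∃ c : ℝ, c = A / V := ⟨_, rfl⟩
  obtain ⟨φ, hφ⟩ : ∃ φ : EuclideanSpace ℝ (Fin n) → ℝ,
    φ = fun u => B.indicator (fun _ => -c) u +
      ∑ x ∈ X, ({x} : Set (EuclideanSpace ℝ (Fin n))).indicator (fun _ => a x) u := ⟨_, rfl⟩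
  have hXB : ∀ x ∈ X, x ∉ B := by
    intro x hx h
    rw [hB, mem_ball_zero_iff, hX x hx] at h
    exact lt_irrefl _ h
  have hφB : ∀ u ∈ B, φ u = -c := by
    intro u hu
    rw [hφ]
    simp only
    rw [Set.indicator_of_mem hu, Finset.sum_eq_zero, add_zero]
    intro x hx
    rw [Set.indicator_of_notMem]
    rintro rfl
    exact hXB u hx hu
  have hφX : ∀ z ∈ X, φ z = a z := by
    intro z hz
    rw [hφ]
    simp only
    rw [Set.indicator_of_notMem (hXB z hz), zero_add, Finset.sum_eq_single z]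
    · rw [Set.indicator_of_mem (Set.mem_singleton z)]
    · intro x _ hxz
      rw [Set.indicator_of_notMem]
      intro h
      exact hxz (Set.mem_singleton_iff.1 h).symm
    · intro h
      exact absurd hz h
  have hφm : Measurable φ := by
    rw [hφ]
    refine (measurable_const.indicator hBm).add ?_
    exact Finset.measurable_sum _ fun x _ => measurable_const.indicator (measurableSet_singleton x)
  obtain ⟨M, hM⟩ : ∃ M : ℝ, M = |c| + ∑ x ∈ X, |a x| := ⟨_, rfl⟩
  have hφb : ∀ u, |φ u| ≤ M := by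
    intro u
    rw [hφ, hM]
    refine (abs_add_le _ _).trans (add_le_add ?_ ?_)
    · by_cases hu : u ∈ B
      · rw [Set.indicator_of_mem hu, abs_neg]
      · rw [Set.indicator_of_notMem hu, abs_zero]
        exact abs_nonneg _
    · refine (Finset.abs_sum_le_sum_abs _ _).trans (Finset.sum_le_sum fun x _ => ?_)
      by_cases hu : u ∈ ({x} : Set (EuclideanSpace ℝ (Fin n)))
      · rw [Set.indicator_of_mem hu]
      · rw [Set.indicator_of_notMem hu, abs_zero]
        exact abs_nonneg _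
  have hM0 : 0 ≤ M := (abs_nonneg _).trans (hφb 0)
  -- the measure
  obtain ⟨μ, hμ⟩ : ∃ μ : Measure (EuclideanSpace ℝ (Fin n)),
    μ = volume.restrict B + ∑ x ∈ X, Measure.dirac x := ⟨_, rfl⟩
  have hfin1 : IsFiniteMeasure (volume.restrict B) := ⟨by
    rw [Measure.restrict_apply_univ]
    exact lt_top_iff_ne_top.2 hBt⟩
  have hfin : IsFiniteMeasure μ := by
    rw [hμ]
    infer_instance
  have hintμ : ∀ f : EuclideanSpace ℝ (Fin n) → ℝ, Measurable f → (∃ D : ℝ, ∀ u, |f u| ≤ D) →
      ∫ u, f u ∂μ = (∫ u in B, f u) + ∑ x ∈ X, f x := by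
    intro f hf hD
    obtain ⟨D, hD⟩ := hD
    have hi : ∀ ν : Measure (EuclideanSpace ℝ (Fin n)), IsFiniteMeasure ν → Integrable f ν := by
      intro ν _
      exact Integrable.of_bound (C := D) hf.aestronglyMeasurable
        (Eventually.of_forall fun u => by simpa using hD u)
    rw [hμ, integral_add_measure (hi _ hfin1) (hi _ inferInstance),
      integral_finsetSum_measure fun x _ => hi _ inferInstance]
    congr 1
    exact Finset.sum_congr rfl fun x _ => integral_dirac _ _
  -- positivity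
  have hpos := psd_finite μ (fun z : EuclideanSpace ℝ (Fin n) × EuclideanSpace ℝ (Fin n) =>
      K z.1 z.2 * (φ z.1 * φ z.2))
    (hKm.mul ((hφm.comp measurable_fst).mul (hφm.comp measurable_snd))) (C * (M * M))
    (fun z => by
      rw [abs_mul, abs_mul]
      exact mul_le_mul (hKb _ _) (mul_le_mul (hφb _) (hφb _) (abs_nonneg _) hM0)
        (mul_nonneg (abs_nonneg _) (abs_nonneg _)) hC0)
    (fun m x => by
      have h1 := hPD m (fun i => un e (x i)) (fun i => φ (x i)) fun i => norm_un he _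
      refine h1.trans (le_of_eq ?_)
      refine Finset.sum_congr rfl fun i _ => Finset.sum_congr rfl fun j _ => ?_
      simp only [hK']
      obtain ⟨h2, h3⟩ := hcs (un e (x i)) (un e (x j)) (norm_un he _) (norm_un he _)
      rw [hGg _ h2 h3]
      ring)
  have hKz : ∀ z, Measurable fun u => K u z := fun z =>
    hKm.comp (measurable_id.prodMk measurable_const)
  have hKz' : ∀ z, Measurable fun u => K z u := fun z =>
    hKm.comp (measurable_const.prodMk measurable_id)
  have hin : ∀ u, ∫ w, K u w * (φ u * φ w) ∂μ = φ u * (-c * h₀ + ∑ z ∈ X, a z * K u z) := by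
    intro u
    rw [hintμ (fun w => K u w * (φ u * φ w)) ((hKz' u).mul (hφm.const_mul _))
      ⟨C * (M * M), fun w => by
        rw [abs_mul, abs_mul]
        exact mul_le_mul (hKb _ _) (mul_le_mul (hφb _) (hφb _) (abs_nonneg _) hM0)
          (mul_nonneg (abs_nonneg _) (abs_nonneg _)) hC0⟩]
    have h1 : ∫ w in B, K u w * (φ u * φ w) = φ u * (-c * h₀) := by
      rw [← hint u, ← integral_const_mul, ← integral_const_mul]
      refine setIntegral_congr_fun hBm fun w hw => ?_
      rw [hφB w hw]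
      ring
    have h2 : ∑ x ∈ X, K u x * (φ u * φ x) = φ u * ∑ z ∈ X, a z * K u z := by
      rw [Finset.mul_sum]
      refine Finset.sum_congr rfl fun x hx => ?_
      rw [hφX x hx]
      ring
    rw [h1, h2]
    ring
  simp only [hin] at hpos
  have hSm : Measurable fun u => -c * h₀ + ∑ z ∈ X, a z * K u z :=
    measurable_const.add (Finset.measurable_sum _ fun z _ => (hKz z).const_mul _)
  rw [hintμ (fun u => φ u * (-c * h₀ + ∑ z ∈ X, a z * K u z)) (hφm.mul hSm)
    ⟨M * (|c * h₀| + ∑ z ∈ X, |a z| * C), fun u => by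
      rw [abs_mul]
      refine mul_le_mul (hφb u) ?_ (abs_nonneg _) hM0
      refine (abs_add_le _ _).trans (add_le_add (by rw [neg_mul, abs_neg]) ?_)
      refine (Finset.abs_sum_le_sum_abs _ _).trans (Finset.sum_le_sum fun z _ => ?_)
      rw [abs_mul]
      exact mul_le_mul_of_nonneg_left (hKb _ _) (abs_nonneg _)⟩] at hpos
  have hI : ∀ z, IntegrableOn (fun u => a z * K u z) B := by
    intro z
    refine Integrable.of_bound (C := |a z| * C) ((hKz z).const_mul _).aestronglyMeasurable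
      (Eventually.of_forall fun u => ?_)
    rw [Real.norm_eq_abs, abs_mul]
    exact mul_le_mul_of_nonneg_left (hKb _ _) (abs_nonneg _)
  have h1 : ∫ u in B, φ u * (-c * h₀ + ∑ z ∈ X, a z * K u z) =
      -c * (-c * h₀ * V + A * h₀) := by
    have h2 : ∫ u in B, φ u * (-c * h₀ + ∑ z ∈ X, a z * K u z) =
        ∫ u in B, -c * (-c * h₀ + ∑ z ∈ X, a z * K u z) := by
      refine setIntegral_congr_fun hBm fun u hu => ?_
      rw [hφB u hu]
    rw [h2, integral_const_mul, integral_add (integrable_const _)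
      (integrable_finsetSum _ fun z _ => hI z), setIntegral_const, measureReal_def, ← hV,
      smul_eq_mul, integral_finsetSum _ fun z _ => hI z]
    congr 1
    have h3 : ∑ z ∈ X, ∫ u in B, a z * K u z = A * h₀ := by
      rw [hA, Finset.sum_mul]
      refine Finset.sum_congr rfl fun z _ => ?_
      rw [integral_const_mul, hint']
    rw [h3]
    ring
  have h2 : ∑ x ∈ X, φ x * (-c * h₀ + ∑ z ∈ X, a z * K x z) =
      -c * h₀ * A + ∑ x ∈ X, ∑ z ∈ X, a x * a z * g (inner ℝ x z) := by
    rw [hA, Finset.mul_sum, ← Finset.sum_add_distrib]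
    refine Finset.sum_congr rfl fun x hx => ?_
    rw [hφX x hx, mul_add, Finset.mul_sum]
    congr 1
    · ring
    · refine Finset.sum_congr rfl fun z hz => ?_
      rw [hKX x hx z hz]
      ring
  rw [h1, h2] at hpos
  rw [hmean, ← hA]
  have h3 : -c * (-c * h₀ * V + A * h₀) + (-c * h₀ * A) = -(h₀ / V * A ^ 2) := by
    rw [hc]
    field_simp
    ring
  linarith

end Pool.Agent.Y570.SP
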