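import Mathlib
import Pool.Agent.Y570.SP.Abs
import Pool.Agent.Y570.SP.Geo
import Pool.Agent.Y570.SP.Mean
import Pool.Agent.Y509.KP.Dens

/-!
Y570/SP (helper570, MP_b5f63d_co): the `k`-point bounds for spherical codes.
-/

set_option autoImplicit false
set_option linter.unusedSectionVars false

open MeasureTheory Filter Topology

namespace Pool.Agent.Y570.SP

open Pool.Agent.Y509.KP (PPack LBound contr contr_map weak cond_empty)
open Pool.Agent.TH41.KL (PD)

abbrev E (n : ℕ) := EuclideanSpace ℝ (Fin n)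

variable {n k : ℕ}

open Classical in
/-- pseudo-codes of level `k` on finite sets of unit vectors, with inner products `≤ s` -/
structure SCode (n k : ℕ) (s : ℝ) (X : Finset (E n)) (y : Finset X → ℝ) : Prop where
  one : y ∅ = 1
  sep : ∀ S : Finset X, ∀ u ∈ S, ∀ v ∈ S, u ≠ v → s < inner ℝ (u : E n) v → y S = 0
  nonneg : ∀ D F : Finset X, D.card + F.card ≤ k → 0 ≤ Pool.Agent.Y570.KP.cond y D F ∅
  psd : ∀ D F : Finset X, D.card + F.card + 2 ≤ k → ∀ a : Option X → ℝ,
    0 ≤ ∑ s, ∑ t, a s * a t * Pool.Agent.Y570.KP.cond y D F (s.toFinset ∪ t.toFinset)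

/-- `B` bounds all pseudo-codes of level `k` -/
def SBound (n k : ℕ) (s B : ℝ) : Prop :=
  ∀ X : Finset (E n), (∀ x ∈ X, ‖x‖ = 1) → ∀ y : Finset X → ℝ, SCode n k s X y → ∑ x, y {x} ≤ B

/-- the `k`-point bound for spherical codes -/
noncomputable def KS (n k : ℕ) (s : ℝ) : ℝ := sInf {B : ℝ | SBound n k s B}

open Classical in
lemma SCode.kc {s : ℝ} {X : Finset (E n)} {y : Finset X → ℝ} (h : SCode n k s X y) :
    KC k (fun u v : X => s < inner ℝ (u : E n) v) y :=
  ⟨h.one, h.sep, h.nonneg, h.psd⟩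

open Classical in
lemma scode_of {s : ℝ} {X : Finset (E n)} {y : Finset X → ℝ}
    (h : KC k (fun u v : X => s < inner ℝ (u : E n) v) y) : SCode n k s X y :=
  ⟨h.one, h.sep, h.nonneg, h.psd⟩

open Classical in
lemma ppack_kc {X : Finset (E n)} {y : Finset X → ℝ} (h : PPack n k X y) :
    KC k (fun u v : X => dist (u : E n) v < 1) y :=
  ⟨h.one, h.sep, h.nonneg, h.psd⟩

open Classical in
/-- the indicator of a code -/
lemma scode_one {s : ℝ} {X : Finset (E n)}
    (hX : ∀ x ∈ X, ∀ z ∈ X, x ≠ z → inner ℝ x z ≤ s) : SCode n k s X (fun _ => 1) := by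
  have h1 : ∀ D F S : Finset X, Pool.Agent.Y570.KP.cond (fun _ => (1 : ℝ)) D F S =
      if F = ∅ then 1 else 0 := by
    intro D F S
    unfold Pool.Agent.Y570.KP.cond
    simp only [mul_one]
    have h2 := Finset.sum_powerset_neg_one_pow_card (x := F)
    have h3 : ∑ m ∈ F.powerset, (-1 : ℝ) ^ m.card = ((∑ m ∈ F.powerset, (-1 : ℤ) ^ m.card : ℤ) : ℝ) := by
      push_cast
      rfl
    rw [h3, h2]
    split_ifs <;> simp
  refine ⟨rfl, fun S u _ v _ huv h => ?_, fun D F _ => ?_, fun D F _ a => ?_⟩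
  · have := hX u u.2 v v.2 (fun h' => huv (Subtype.ext h'))
    linarith
  · rw [h1]
    split_ifs <;> norm_num
  · simp only [h1]
    have h4 : ∑ s, ∑ t, a s * a t * (if F = ∅ then (1 : ℝ) else 0) =
        (∑ s, a s) ^ 2 * (if F = ∅ then (1 : ℝ) else 0) := by
      rw [sq, Finset.sum_mul_sum, Finset.sum_mul]
      refine Finset.sum_congr rfl fun s _ => ?_
      rw [Finset.sum_mul]
    rw [h4]
    split_ifs <;> positivity

lemma sbound_card {s B : ℝ} (h : SBound n k s B) {C : Finset (E n)} (hC : ∀ x ∈ C, ‖x‖ = 1)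
    (hs : ∀ x ∈ C, ∀ z ∈ C, x ≠ z → inner ℝ x z ≤ s) : (C.card : ℝ) ≤ B := by
  have h1 := h C hC (fun _ => 1) (scode_one hs)
  simpa using h1

lemma sbound_nonneg {s B : ℝ} (h : SBound n k s B) : 0 ≤ B := by
  have := sbound_card h (C := ∅) (by simp) (by simp)
  simpa using this

lemma sbound_mono {s B : ℝ} (h : SBound n k s B) : SBound n (k + 1) s B :=
  fun X hX y hy => h X hX y ⟨hy.one, hy.sep, fun D F hDF => hy.nonneg D F (by omega),
    fun D F hDF => hy.psd D F (by omega)⟩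

/-- the bound is finite -/
lemma exists_sbound (hk : 2 ≤ k) {s : ℝ} (hs : s < 1) : ∃ B, SBound n k s B := by
  classical
  obtain ⟨r, hr⟩ : ∃ r : ℝ, r = √(2 * (1 - s)) := ⟨_, rfl⟩
  have hr0 : 0 < r := by
    rw [hr]
    exact Real.sqrt_pos.2 (by linarith)
  have hr2 : r ^ 2 = 2 * (1 - s) := by
    rw [hr, Real.sq_sqrt (by linarith)]
  obtain ⟨t, -, ht, hcov⟩ := (isCompact_sphere (0 : E n) 1).finite_cover_balls
    (show 0 < r / 2 by positivity)
  refine ⟨(ht.toFinset.card : ℝ), fun X hX y hy => ?_⟩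
  have hkc := hy.kc
  have h1 : ∀ c ∈ ht.toFinset, ∑ x ∈ (Finset.univ : Finset X).filter
      (fun x : X => dist (x : E n) c < r / 2), y {x} ≤ 1 := by
    intro c _
    refine hkc.clique hk _ fun u hu v hv huv => ?_
    rw [Finset.mem_filter] at hu hv
    have h2 : dist (u : E n) v < r := by
      calc dist (u : E n) v ≤ dist (u : E n) c + dist (v : E n) c := dist_triangle_right _ _ _
        _ < r := by linarith [hu.2, hv.2]
    have h3 : dist (u : E n) v ^ 2 = 2 - 2 * inner ℝ (u : E n) v := by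
      rw [dist_eq_norm, norm_sub_sq_real, hX u u.2, hX v v.2]
      ring
    have h4 : dist (u : E n) v ^ 2 < r ^ 2 := pow_lt_pow_left₀ h2 dist_nonneg (by norm_num)
    rw [h3, hr2] at h4
    change s < inner ℝ (u : E n) v
    linarith
  have h2 : ∀ x : X, 0 ≤ y {x} := fun x => hkc.single_nonneg (by omega) x
  calc ∑ x, y {x} ≤ ∑ x : X, ∑ c ∈ ht.toFinset, if dist (x : E n) c < r / 2 then y {x} else 0 := by
        refine Finset.sum_le_sum fun x _ => ?_
        have hx : (x : E n) ∈ Metric.sphere (0 : E n) 1 := by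
          rw [mem_sphere_zero_iff_norm]
          exact hX x x.2
        obtain ⟨c, hc, hxc⟩ := Set.mem_iUnion₂.1 (hcov hx)
        have h3 := Finset.single_le_sum (f := fun c => if dist (x : E n) c < r / 2 then y {x} else 0)
          (fun c _ => by
            split_ifs
            · exact h2 x
            · exact le_rfl) (ht.mem_toFinset.2 hc)
        refine le_trans (le_of_eq ?_) h3
        rw [if_pos (Metric.mem_ball.1 hxc)]
    _ = ∑ c ∈ ht.toFinset, ∑ x ∈ (Finset.univ : Finset X).filter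
        (fun x : X => dist (x : E n) c < r / 2), y {x} := by
        rw [Finset.sum_comm]
        refine Finset.sum_congr rfl fun c _ => ?_
        rw [Finset.sum_filter]
    _ ≤ ∑ _c ∈ ht.toFinset, (1 : ℝ) := Finset.sum_le_sum h1
    _ = ht.toFinset.card := by simp

lemma KS_le {s B : ℝ} (h : SBound n k s B) : KS n k s ≤ B :=
  csInf_le ⟨0, fun _ h' => sbound_nonneg h'⟩ h

lemma le_KS (hk : 2 ≤ k) {s c : ℝ} (hs : s < 1) (h : ∀ B, SBound n k s B → c ≤ B) :
    c ≤ KS n k s := le_csInf (exists_sbound hk hs) h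

/-- **Transfer to shells.** -/
theorem transfer (hn : 2 ≤ n) {a R s B : ℝ} (hs : s < 1) (ha : 0 < a)
    (hR : (R - a) ^ 2 + 2 * (1 - s) * R ^ 2 ≤ 1) (h : SBound n k s B) :
    LBound n k {x : E n | a ≤ ‖x‖ ∧ ‖x‖ < R} B := by
  classical
  intro X hX y hy
  obtain ⟨ψ, h1, h2, h3⟩ := dirs hn hs ha hR X fun x hx => hX hx
  obtain ⟨X', hX'⟩ : ∃ X' : Finset (E n), X' = X.image ψ := ⟨_, rfl⟩
  have hmem : ∀ x : X, ψ x ∈ X' := fun x => by
    rw [hX']
    exact Finset.mem_image_of_mem ψ x.2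
  obtain ⟨e', he'⟩ : ∃ e' : X ≃ X', ∀ x, (e' x : E n) = ψ x := by
    refine ⟨Equiv.ofBijective (fun x : X => (⟨ψ x, hmem x⟩ : X')) ⟨?_, ?_⟩, fun x => rfl⟩
    · intro x z hxz
      exact Subtype.ext (h1 x.2 z.2 (Subtype.mk.inj hxz))
    · rintro ⟨w, hw⟩
      rw [hX', Finset.mem_image] at hw
      obtain ⟨x, hx, rfl⟩ := hw
      exact ⟨⟨x, hx⟩, rfl⟩
  have h4 : KC k (fun u v : X' => s < inner ℝ (u : E n) v)
      (fun S => y (S.map e'.symm.toEmbedding)) := by
    refine (ppack_kc hy).transport e'.symm fun u v huv => ?_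
    obtain ⟨x, rfl⟩ := e'.surjective u
    obtain ⟨z, rfl⟩ := e'.surjective v
    rw [e'.symm_apply_apply, e'.symm_apply_apply]
    rw [he', he'] at huv
    exact h3 x x.2 z z.2 huv
  have h5 := h X' (fun w hw => by
    rw [hX', Finset.mem_image] at hw
    obtain ⟨x, hx, rfl⟩ := hw
    exact h2 x hx) _ (scode_of h4)
  rw [sum_transport] at h5
  exact h5

open Classical in
/-- certificates of level `k` for spherical codes -/
structure SCert (n k : ℕ) (s : ℝ) (g : ℝ → ℝ) (T : Finset (E n) → E n → E n → ℝ) (lam : ℝ) :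
    Prop where
  continuousOn : ContinuousOn g (Set.Icc (-1) 1)
  posdef : PD n g
  empty : ∀ x z, T ∅ x z = g (inner ℝ x z)
  symm : ∀ Q x z, T Q x z = T Q z x
  psd : ∀ Q : Finset (E n), Q.Nonempty → ∀ (X : Finset (E n)) (a : E n → ℝ), (∀ x ∈ X, ‖x‖ = 1) →
    0 ≤ ∑ x ∈ X, ∑ z ∈ X, a x * a z * T Q x z
  single : ∀ x, ‖x‖ = 1 → contr k T {x} ≤ lam
  sep : ∀ S : Finset (E n), 2 ≤ S.card → S.card ≤ k → (∀ x ∈ S, ‖x‖ = 1) →
    (∀ x ∈ S, ∀ z ∈ S, x ≠ z → inner ℝ x z ≤ s) → contr k T S ≤ 0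

/-- positive definite functions on finite sets -/
lemma pd_sum {g : ℝ → ℝ} (h : PD n g) (X : Finset (E n)) (a : E n → ℝ)
    (hX : ∀ x ∈ X, ‖x‖ = 1) : 0 ≤ ∑ x ∈ X, ∑ z ∈ X, a x * a z * g (inner ℝ x z) := by
  obtain ⟨e, -⟩ : ∃ e : Fin X.card ≃ X, True := ⟨X.equivFin.symm, trivial⟩
  have h1 := h X.card (fun i => (e i : E n)) (fun i => a (e i)) fun i => hX _ (e i).2
  refine h1.trans (le_of_eq ?_)
  rw [← Finset.sum_coe_sort X, ← Equiv.sum_comp e]
  refine Finset.sum_congr rfl fun i _ => ?_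
  rw [← Finset.sum_coe_sort X, ← Equiv.sum_comp e]

lemma scert_ineq (hk : 2 ≤ k) {s : ℝ} {g : ℝ → ℝ} {T : Finset (E n) → E n → E n → ℝ} {lam : ℝ}
    (hc : SCert n k s g T lam) {X : Finset (E n)} (hX : ∀ x ∈ X, ‖x‖ = 1) {y : Finset X → ℝ}
    (hy : SCode n k s X y) :
    ∑ x : X, ∑ z : X, y {x} * y {z} * g (inner ℝ (x : E n) z) ≤ lam * ∑ x, y {x} := by
  classical
  obtain ⟨e, he⟩ : ∃ e : X ↪ E n, e = Function.Embedding.subtype _ := ⟨_, rfl⟩
  have hex : ∀ x : X, e x = x := fun x => by rw [he]; rfl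
  have hsum : ∀ g : E n → ℝ, ∑ x : X, g (e x) = ∑ x ∈ X, g x := by
    intro g
    simp_rw [hex]
    exact Finset.sum_coe_sort X g
  have hext : ∀ a : X → ℝ, ∃ b : E n → ℝ, ∀ x, a x = b (e x) := by
    intro a
    refine ⟨fun x => if h : x ∈ X then a ⟨x, h⟩ else 0, fun x => ?_⟩
    rw [hex]
    simp
  have hw := weak hk hy.one hy.nonneg hy.psd
    (T := fun Q x z => T (Q.map e) (e x) (e z)) (lam := lam)
    (fun Q x z => hc.symm _ _ _) (fun Q a => ?_) (fun x => ?_) (fun S h1 h2 h3 => ?_)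
  · simp only [Finset.map_empty, hc.empty, hex] at hw
    exact hw
  · obtain ⟨b, hb⟩ := hext a
    have h1 : ∑ x : X, ∑ z : X, a x * a z * T (Q.map e) (e x) (e z) =
        ∑ x ∈ X, ∑ z ∈ X, b x * b z * T (Q.map e) x z := by
      simp_rw [hb]
      rw [hsum fun x => ∑ z : X, b x * b (e z) * T (Q.map e) x (e z)]
      refine Finset.sum_congr rfl fun x _ => ?_
      exact hsum fun z => b x * b z * T (Q.map e) x z
    rw [h1]
    rcases Finset.eq_empty_or_nonempty (Q.map e) with h | h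
    · rw [h]
      simp only [hc.empty]
      exact pd_sum hc.posdef X b hX
    · exact hc.psd _ h X b hX
  · rw [contr_map e, Finset.map_singleton]
    exact hc.single _ (by rw [hex]; exact hX x x.2)
  · rw [contr_map e]
    refine hc.sep _ (by rwa [Finset.card_map]) (by rwa [Finset.card_map]) ?_ ?_
    · intro x hx
      obtain ⟨x', -, rfl⟩ := Finset.mem_map.1 hx
      rw [hex]
      exact hX x' x'.2
    · intro x hx z hz hxz
      by_contra hlt
      rw [not_le] at hlt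
      obtain ⟨x', hx', rfl⟩ := Finset.mem_map.1 hx
      obtain ⟨z', hz', rfl⟩ := Finset.mem_map.1 hz
      rw [hex, hex] at hlt
      exact h3 (hy.sep S x' hx' z' hz' (fun h => hxz (by rw [h])) hlt)

/-- **Certificates bound the hierarchy.** -/
theorem scert_bound (hn : 0 < n) (hk : 2 ≤ k) {s : ℝ} {g : ℝ → ℝ}
    {T : Finset (E n) → E n → E n → ℝ} {lam : ℝ} (hc : SCert n k s g T lam)
    (hm : 0 < mean n g) : SBound n k s (lam / mean n g) := by
  classical
  intro X hX y hy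
  have h1 := scert_ineq hk hc hX hy
  obtain ⟨p, hp⟩ : ∃ p : ℝ, p = ∑ x, y {x} := ⟨_, rfl⟩
  have hp0 : 0 ≤ p := by
    rw [hp]
    exact Finset.sum_nonneg fun x _ => hy.kc.single_nonneg (by omega) x
  have hlam : 0 ≤ lam := by
    have hne : Nontrivial (E n) := by
      have : Nonempty (Fin n) := ⟨⟨0, hn⟩⟩
      infer_instance
    obtain ⟨u, hu⟩ : ∃ u : E n, ‖u‖ = 1 := exists_norm_eq _ zero_le_one
    have h3 := scert_ineq hk hc (X := {u}) (by simpa using hu) (y := fun _ => 1)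
      (scode_one (by simp))
    have h4 := pd_sum hc.posdef {u} (fun _ => 1) (by simpa using hu)
    simp at h3 h4
    linarith
  have h2 := psd_mean hn hc.continuousOn hc.posdef X hX
    (fun x => if h : x ∈ X then y {⟨x, h⟩} else 0)
  have h5 : ∑ x ∈ X, (fun x => if h : x ∈ X then y {⟨x, h⟩} else 0) x = p := by
    rw [hp, ← Finset.sum_coe_sort X]
    refine Finset.sum_congr rfl fun x _ => ?_
    simp
  have h6 : ∑ x ∈ X, ∑ z ∈ X, (fun x => if h : x ∈ X then y {⟨x, h⟩} else 0) x *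
      (fun x => if h : x ∈ X then y {⟨x, h⟩} else 0) z * g (inner ℝ x z) =
      ∑ x : X, ∑ z : X, y {x} * y {z} * g (inner ℝ (x : E n) z) := by
    rw [← Finset.sum_coe_sort X]
    refine Finset.sum_congr rfl fun x _ => ?_
    rw [← Finset.sum_coe_sort X]
    refine Finset.sum_congr rfl fun z _ => ?_
    simp
  rw [h5, h6] at h2
  rw [← hp] at h1 ⊢
  rw [le_div_iff₀ hm]
  rcases hp0.lt_or_eq with h7 | h7
  · have h8 : p * (p * mean n g) ≤ p * lam := by nlinarith
    exact le_of_mul_le_mul_left h8 h7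
  · rw [← h7, zero_mul]
    exact hlam

end Pool.Agent.Y570.SP
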