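import Mathlib
import Pool.Agent.Y570.SP.Sph

/-!
Y570/SP (helper570, MP_b5f63d_co): the hierarchy is exact at the level `α + 1`.
-/

set_option autoImplicit false
set_option linter.unusedSectionVars false

namespace Pool.Agent.Y570.SP

open Pool.Agent.Y509.KP (cond_empty)

section

variable {V : Type} [Fintype V] [DecidableEq V] {k : ℕ}

/-- the conditional expectation of the number of further points -/
lemma KC.exact {R : V → V → Prop} {y : Finset V → ℝ} (h : KC k R y) {α : ℕ}
    (hα : ∀ S : Finset V, α < S.card → y S = 0) (hk : α + 1 ≤ k) :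
    ∀ (j : ℕ) (D : Finset V), D.card + j = α → ∑ x ∈ Dᶜ, y (insert x D) ≤ j * y D := by
  intro j
  induction j with
  | zero =>
    intro D hD
    have h1 : ∑ x ∈ Dᶜ, y (insert x D) = 0 := by
      refine Finset.sum_eq_zero fun x hx => hα _ ?_
      rw [Finset.card_insert_of_notMem (Finset.mem_compl.1 hx)]
      omega
    rw [h1]
    simp
  | succ j ih =>
    intro D hD
    obtain ⟨N, hN⟩ : ∃ N : ℝ, N = ∑ x ∈ Dᶜ, y (insert x D) := ⟨_, rfl⟩
    have hc : ∀ f : V → ℝ, ∑ x, (if x ∈ D then 0 else 1) * f x = ∑ x ∈ Dᶜ, f x := by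
      intro f
      rw [← Finset.sum_compl_add_sum D, Finset.sum_eq_zero (s := D), add_zero]
      · refine Finset.sum_congr rfl fun x hx => ?_
        rw [if_neg (Finset.mem_compl.1 hx), one_mul]
      · intro x hx
        rw [if_pos hx, zero_mul]
    have h1 := h.psd D ∅ (by rw [Finset.card_empty]; omega)
      (fun s => s.elim (-((j : ℝ) + 1)) (fun x => if x ∈ D then 0 else 1))
    simp only [Fintype.sum_option, Option.elim_none, Option.elim_some, cond_empty,
      Option.toFinset_some, Option.toFinset_none, Finset.empty_union, Finset.union_empty] at h1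
    have hu : ∀ x, D ∪ {x} = insert x D := fun x => by
      rw [Finset.union_comm, Finset.singleton_union]
    have h2 : ∑ x, -((j : ℝ) + 1) * (if x ∈ D then 0 else 1) * y (D ∪ {x}) =
        -((j : ℝ) + 1) * N := by
      rw [hN, ← hc, Finset.mul_sum]
      refine Finset.sum_congr rfl fun x _ => ?_
      rw [hu]
      ring
    have h3 : ∑ x, ((if x ∈ D then 0 else 1) * -((j : ℝ) + 1) * y (D ∪ {x}) +
        ∑ z, (if x ∈ D then 0 else 1) * (if z ∈ D then 0 else 1) * y (D ∪ ({x} ∪ {z}))) =
        -((j : ℝ) + 1) * N + ∑ x ∈ Dᶜ, ∑ z ∈ Dᶜ, y (D ∪ ({x} ∪ {z})) := by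
      rw [Finset.sum_add_distrib]
      congr 1
      · rw [← h2]
        refine Finset.sum_congr rfl fun x _ => ?_
        ring
      · rw [← hc]
        refine Finset.sum_congr rfl fun x _ => ?_
        rw [← hc, Finset.mul_sum]
        refine Finset.sum_congr rfl fun z _ => ?_
        ring
    have h4 : ∑ x ∈ Dᶜ, ∑ z ∈ Dᶜ, y (D ∪ ({x} ∪ {z})) ≤ ((j : ℝ) + 1) * N := by
      rw [hN, Finset.mul_sum]
      refine Finset.sum_le_sum fun x hx => ?_
      have hxD := Finset.mem_compl.1 hx
      have h5 := ih (insert x D) (by rw [Finset.card_insert_of_notMem hxD]; omega)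
      rw [Finset.compl_insert] at h5
      have h6 : ∀ z, D ∪ ({x} ∪ {z}) = insert z (insert x D) := by
        intro z
        ext w
        simp only [Finset.mem_union, Finset.mem_singleton, Finset.mem_insert]
        tauto
      simp only [h6]
      rw [← Finset.add_sum_erase _ _ hx, Finset.insert_idem]
      linarith
    rw [h2, h3] at h1
    rw [← hN]
    push_cast
    have hj : (0 : ℝ) < (j : ℝ) + 1 := by positivity
    have h7 : ((j : ℝ) + 1) * N ≤ ((j : ℝ) + 1) * (((j : ℝ) + 1) * y D) := by nlinarith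
    exact le_of_mul_le_mul_left h7 hj

lemma KC.sum_le {R : V → V → Prop} {y : Finset V → ℝ} (h : KC k R y) {α : ℕ}
    (hα : ∀ S : Finset V, α < S.card → y S = 0) (hk : α + 1 ≤ k) : ∑ x, y {x} ≤ α := by
  have h1 := h.exact hα hk α ∅ (by simp)
  rw [h.one, mul_one] at h1
  simpa using h1

end

variable {n k : ℕ}

/-- at the level `α + 1` the hierarchy is exact -/
theorem sbound_exact {s : ℝ} {α : ℕ} (hk : α + 1 ≤ k)
    (hα : ∀ C : Finset (E n), (∀ x ∈ C, ‖x‖ = 1) → (∀ x ∈ C, ∀ z ∈ C, x ≠ z → inner ℝ x z ≤ s) →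
      C.card ≤ α) : SBound n k s α := by
  classical
  intro X hX y hy
  refine (hy.kc).sum_le (fun S hS => ?_) hk
  by_contra hne
  have h1 := hα (S.map (Function.Embedding.subtype _)) (fun x hx => ?_) (fun x hx z hz hxz => ?_)
  · rw [Finset.card_map] at h1
    omega
  · obtain ⟨x', -, rfl⟩ := Finset.mem_map.1 hx
    exact hX _ x'.2
  · obtain ⟨x', hx', rfl⟩ := Finset.mem_map.1 hx
    obtain ⟨z', hz', rfl⟩ := Finset.mem_map.1 hz
    by_contra hlt
    rw [not_le] at hlt
    exact hne (hy.sep S x' hx' z' hz' (fun h => hxz (by rw [h])) hlt)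

end Pool.Agent.Y570.SP
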