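import Mathlib
import Pool.Agent.Y570.SP.Sph
import Pool.Agent.Y509.KP.Bar3
import Pool.Agent.TH41.BL.ASM10
import Pool.Agent.TH41.KL.FIN

/-!
Y570/SP (helper570, MP_b5f63d_co): the barrier for spherical codes.
-/

set_option autoImplicit false
set_option linter.unusedSectionVars false

open MeasureTheory Filter Topology

namespace Pool.Agent.Y570.SP

variable {n k : ℕ}

lemma ball_vol {r : ℝ} (hr : 0 < r) : volume.real (Metric.ball (0 : E n) r) =
    r ^ n * volume.real (Metric.ball (0 : E n) 1) := by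
  have h := Measure.addHaar_ball_mul_of_pos (volume : Measure (E n)) 0 hr 1
  rw [finrank_euclideanSpace_fin, mul_one] at h
  rw [measureReal_def, h, ENNReal.toReal_mul, ENNReal.toReal_ofReal (by positivity)]
  rfl

lemma shell_vol {a R : ℝ} (ha : 0 < a) (hR : a < R) :
    MeasurableSet {x : E n | a ≤ ‖x‖ ∧ ‖x‖ < R} ∧
    Bornology.IsBounded {x : E n | a ≤ ‖x‖ ∧ ‖x‖ < R} ∧
    volume.real {x : E n | a ≤ ‖x‖ ∧ ‖x‖ < R} =
      (R ^ n - a ^ n) * volume.real (Metric.ball (0 : E n) 1) := by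
  have h1 : {x : E n | a ≤ ‖x‖ ∧ ‖x‖ < R} = Metric.ball 0 R \ Metric.ball 0 a := by
    ext x
    simp [and_comm]
  rw [h1]
  refine ⟨measurableSet_ball.diff measurableSet_ball, Metric.isBounded_ball.subset Set.sdiff_subset,
    ?_⟩
  rw [measureReal_sdiff (Metric.ball_subset_ball hR.le) measurableSet_ball
    measure_ball_lt_top.ne, ball_vol (ha.trans hR), ball_vol ha]
  ring

/-- **The barrier for spherical codes.** -/
theorem barrier (ε : ℝ) (hε : 0 < ε) (hε1 : ε ≤ 1) (s : ℝ) (hs : s < 1) :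
    ∀ᶠ n : ℕ in atTop, ∀ k : ℕ, (k : ℝ) ≤ Real.exp ((ε / 3) ^ 6 / 3000000000000 * n) →
    ∀ B : ℝ, SBound n k s B →
      (Real.exp 1 / (Real.pi * (1 - s))) ^ ((n : ℝ) / 2) * Real.exp (-ε * n) ≤ B := by
  obtain ⟨ε', hε'⟩ : ∃ e : ℝ, e = ε / 3 := ⟨_, rfl⟩
  have hε'0 : 0 < ε' := by rw [hε']; positivity
  have hε'1 : ε' ≤ 1 := by rw [hε']; linarith
  have hs1 : 0 < 1 - s := by linarith
  obtain ⟨R, hR⟩ : ∃ R : ℝ, R = Real.exp (-ε') / √(2 * (1 - s)) := ⟨_, rfl⟩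
  have hsq : 0 < √(2 * (1 - s)) := Real.sqrt_pos.2 (by linarith)
  have hR0 : 0 < R := by rw [hR]; positivity
  have hR2 : 2 * (1 - s) * R ^ 2 = Real.exp (-ε') ^ 2 := by
    rw [hR, div_pow, Real.sq_sqrt (by linarith)]
    field_simp
  have hexp : Real.exp (-ε') < 1 := Real.exp_lt_one_iff.2 (by linarith)
  have hexp2 : Real.exp (-ε') ^ 2 < 1 := pow_lt_one₀ (Real.exp_pos _).le hexp (by norm_num)
  obtain ⟨w, hw⟩ : ∃ w : ℝ, w = min (R / 2) √(1 - Real.exp (-ε') ^ 2) := ⟨_, rfl⟩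
  have hw0 : 0 < w := by
    rw [hw]
    exact lt_min (by positivity) (Real.sqrt_pos.2 (by linarith))
  have hw1 : w ≤ R / 2 := by rw [hw]; exact min_le_left _ _
  have hw2 : w ^ 2 ≤ 1 - Real.exp (-ε') ^ 2 := by
    have h1 : w ≤ √(1 - Real.exp (-ε') ^ 2) := by rw [hw]; exact min_le_right _ _
    calc w ^ 2 ≤ √(1 - Real.exp (-ε') ^ 2) ^ 2 := pow_le_pow_left₀ hw0.le h1 2
      _ = _ := Real.sq_sqrt (by linarith)
  obtain ⟨a, ha⟩ : ∃ a : ℝ, a = R - w := ⟨_, rfl⟩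
  have ha0 : 0 < a := by linarith
  have haR : a < R := by linarith
  have hcond : (R - a) ^ 2 + 2 * (1 - s) * R ^ 2 ≤ 1 := by
    rw [hR2, ha, sub_sub_cancel]
    linarith
  have hθ : Tendsto (fun n : ℕ => (a / R) ^ n) atTop (𝓝 0) :=
    tendsto_pow_atTop_nhds_zero_of_lt_one (by positivity) ((div_lt_one hR0).2 haR)
  have hθ2 := hθ.eventually (gt_mem_nhds (show (0 : ℝ) < 1 / 2 by norm_num))
  obtain ⟨n₁, hn₁⟩ := exists_nat_ge (Real.log 2 / ε')
  have hbar := Pool.Agent.Y509.KP.barrier ε' hε'0 hε'1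
  filter_upwards [hbar, hθ2, eventually_ge_atTop n₁, eventually_ge_atTop 2] with n h1 h2 h3 h4 k
    hk B hB
  have hn0 : (0 : ℝ) < n := by exact_mod_cast (by omega : 0 < n)
  obtain ⟨e1, e2, e3⟩ := shell_vol (n := n) ha0 haR
  rw [← hε'] at hk
  have h5 := h1 k hk _ e1 e2 B (transfer h4 hs ha0 hcond hB)
  rw [e3, ball_vol (show (0 : ℝ) < 1 / 2 by norm_num)] at h5
  obtain ⟨v, hv⟩ : ∃ v : ℝ, v = volume.real (Metric.ball (0 : E n) 1) := ⟨_, rfl⟩
  have hv0 : 0 < v := by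
    rw [hv]
    exact ENNReal.toReal_pos (Metric.measure_ball_pos volume _ one_pos).ne'
      measure_ball_lt_top.ne
  rw [← hv] at h5
  have hRn : 0 < R ^ n := by positivity
  have h6 : a ^ n ≤ R ^ n / 2 := by
    rw [div_pow, div_lt_iff₀ hRn] at h2
    linarith
  obtain ⟨P, hP⟩ : ∃ P : ℝ, P = (Real.exp 1 / (2 * Real.pi)) ^ ((n : ℝ) / 2) := ⟨_, rfl⟩
  have hpi := Real.pi_pos
  have hP0 : 0 < P := by
    rw [hP]
    positivity
  rw [← hP] at h5
  have h7 : P * Real.exp (-ε' * n) * (R ^ n / 2) ≤ B * (1 / 2) ^ n := by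
    have h8 : P * Real.exp (-ε' * n) * (R ^ n / 2) * v ≤ B * (1 / 2) ^ n * v := by
      calc P * Real.exp (-ε' * n) * (R ^ n / 2) * v
          ≤ P * Real.exp (-ε' * n) * (R ^ n - a ^ n) * v := by
            have : R ^ n / 2 ≤ R ^ n - a ^ n := by linarith
            gcongr
        _ = P * Real.exp (-ε' * n) * ((R ^ n - a ^ n) * v) := by ring
        _ ≤ B * ((1 / 2) ^ n * v) := h5
        _ = _ := by ring
    exact le_of_mul_le_mul_right h8 hv0
  have h9 : P * Real.exp (-ε' * n) * ((2 * R) ^ n / 2) ≤ B := by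
    have h10 : (2 : ℝ) ^ n * (P * Real.exp (-ε' * n) * (R ^ n / 2)) ≤
        2 ^ n * (B * (1 / 2) ^ n) := mul_le_mul_of_nonneg_left h7 (by positivity)
    have h11 : (2 : ℝ) ^ n * (B * (1 / 2) ^ n) = B := by
      rw [mul_left_comm, ← mul_pow]
      norm_num
    rw [h11] at h10
    refine le_trans (le_of_eq ?_) h10
    rw [mul_pow]
    ring
  refine le_trans ?_ h9
  -- the exponents
  have h12 : (2 * R) ^ n = (2 / (1 - s)) ^ ((n : ℝ) / 2) * Real.exp (-ε' * n) := by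
    have h13 : 2 * R = √(2 / (1 - s)) * Real.exp (-ε') := by
      rw [hR]
      have h14 : √(2 / (1 - s)) * √(2 * (1 - s)) = 2 := by
        rw [← Real.sqrt_mul (by positivity)]
        have : 2 / (1 - s) * (2 * (1 - s)) = 2 ^ 2 := by
          field_simp
        rw [this, Real.sqrt_sq (by norm_num)]
      field_simp
      rw [mul_comm, h14]
    rw [h13, mul_pow, ← Real.exp_nat_mul]
    congr 1
    · rw [Real.sqrt_eq_rpow, ← Real.rpow_natCast, ← Real.rpow_mul (by positivity)]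
      congr 1
      ring
    · congr 1
      ring
  have h15 : (Real.exp 1 / (Real.pi * (1 - s))) ^ ((n : ℝ) / 2) =
      P * (2 / (1 - s)) ^ ((n : ℝ) / 2) := by
    rw [hP, ← Real.mul_rpow (by positivity) (by positivity)]
    congr 1
    field_simp
  have h16 : Real.exp (-ε' * n) ≤ 1 / 2 := by
    have h17 : Real.log 2 ≤ ε' * n := by
      have : Real.log 2 / ε' ≤ n := hn₁.trans (by exact_mod_cast h3)
      rwa [div_le_iff₀' hε'0] at this
    have h18 : (1 : ℝ) / 2 = Real.exp (-Real.log 2) := by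
      rw [Real.exp_neg, Real.exp_log (by norm_num)]
      norm_num
    rw [h18, Real.exp_le_exp]
    linarith
  have h19 : Real.exp (-ε * n) = Real.exp (-ε' * n) * Real.exp (-ε' * n) * Real.exp (-ε' * n) := by
    rw [← Real.exp_add, ← Real.exp_add, hε']
    congr 1
    ring
  rw [h12, h15, h19]
  obtain ⟨Q, hQ⟩ : ∃ Q : ℝ, Q = (2 / (1 - s)) ^ ((n : ℝ) / 2) := ⟨_, rfl⟩
  have hQ0 : 0 < Q := by
    rw [hQ]
    positivity
  rw [← hQ]
  obtain ⟨x, hx⟩ : ∃ x : ℝ, x = Real.exp (-ε' * n) := ⟨_, rfl⟩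
  rw [← hx] at h16 ⊢
  have hx0 : 0 < x := by
    rw [hx]
    exact Real.exp_pos _
  calc P * Q * (x * x * x) = P * Q * (x * x) * x := by ring
    _ ≤ P * Q * (x * x) * (1 / 2) := mul_le_mul_of_nonneg_left h16 (by positivity)
    _ = P * x * (Q * x / 2) := by ring

end Pool.Agent.Y570.SP
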